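import Mathlib

/-!
# Switching classes and rigid graphs: definitions

Problem MP_87adae_co (reconstruction of switching classes).
-/

set_option autoImplicit false

namespace Pool.Agent.Helper36.RT

open Finset

variable {V W U : Type}

/-- The graph obtained from `X` by switching on `τ`: distinct vertices on the same side are
adjacent iff they are adjacent in `X`, distinct vertices on different sides iff they are not. -/
def sw (X : SimpleGraph V) (τ : Set V) : SimpleGraph V where
  Adj u w := u ≠ w ∧ (X.Adj u w ↔ (u ∈ τ ↔ w ∈ τ))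
  symm := ⟨fun u w h => ⟨h.1.symm, by rw [X.adj_comm, h.2]; exact Iff.comm⟩⟩
  loopless := ⟨fun u h => h.1 rfl⟩

/-- `X` and `Y` are switching equivalent. -/
def SwEq (X : SimpleGraph V) (Y : SimpleGraph W) : Prop :=
  ∃ τ : Set V, Nonempty (Y ≃g sw X τ)

/-- The card `G - v`. -/
def cardOf (G : SimpleGraph V) (v : V) : SimpleGraph {x : V // x ≠ v} :=
  G.comap Subtype.val

/-- The cards of `G` at the vertices of `S` determine the switching class of `G`: if the cards
`G - v` and `H - π v` are switching equivalent for `v ∈ S`, then `G` and `H` are. -/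
def ClassDetermined (G : SimpleGraph V) (S : Set V) : Prop :=
  ∀ (W : Type) (H : SimpleGraph W) (π : V ≃ W),
    (∀ v ∈ S, SwEq (cardOf G v) (cardOf H (π v))) → SwEq G H

/-- The cards of `G` at the vertices of `S` determine the graph `G`: if the cards
`G - v` and `H - π v` are isomorphic for `v ∈ S`, then `G` and `H` are. -/
def GraphDetermined (G : SimpleGraph V) (S : Set V) : Prop :=
  ∀ (W : Type) (H : SimpleGraph W) (π : V ≃ W),
    (∀ v ∈ S, Nonempty (cardOf G v ≃g cardOf H (π v))) → Nonempty (G ≃g H)

/-- `G - u - v`. -/
def del2 (G : SimpleGraph V) (u v : V) : SimpleGraph {x : V // x ≠ u ∧ x ≠ v} :=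
  G.comap Subtype.val

/-- No nontrivial switching of a graph `G - u - v` is isomorphic to a graph `G - u' - v'`. -/
def Rigid (G : SimpleGraph V) : Prop :=
  ∀ u v u' v' : V, u ≠ v → u' ≠ v' → ∀ B : Set {x : V // x ≠ u ∧ x ≠ v},
    Nonempty (sw (del2 G u v) B ≃g del2 G u' v') → B = ∅ ∨ B = Set.univ

open Classical in
/-- The number of edges of `G` between `σ` and `τ` (disjoint sets). -/
noncomputable def cross (G : SimpleGraph V) (σ τ : Finset V) : ℕ :=
  ((σ ×ˢ τ).filter fun p => G.Adj p.1 p.2).card

/-- Two disjoint nonempty sets of vertices which together contain all but at most two vertices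
span less than half of the possible edges. -/
def Thin (G : SimpleGraph V) : Prop :=
  ∀ σ τ : Finset V, Disjoint σ τ → σ.Nonempty → τ.Nonempty →
    Nat.card V ≤ σ.card + τ.card + 2 → 2 * cross G σ τ < σ.card * τ.card

end Pool.Agent.Helper36.RT
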