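import Pool.Agent.Helper36.RT.Defs

/-!
# Transfer between reconstruction of switching classes and of graphs

Problem MP_87adae_co (reconstruction of switching classes).
-/

set_option autoImplicit false

namespace Pool.Agent.Helper36.RT

open Finset

variable {V W U : Type}

/-! ### switching -/

theorem sw_adj {X : SimpleGraph V} {τ : Set V} {u w : V} :
    (sw X τ).Adj u w ↔ u ≠ w ∧ (X.Adj u w ↔ (u ∈ τ ↔ w ∈ τ)) := Iff.rfl

theorem sw_sw (X : SimpleGraph V) (τ ρ : Set V) :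
    sw (sw X τ) ρ = sw X {x | ¬ (x ∈ τ ↔ x ∈ ρ)} := by
  ext u w
  rw [sw_adj, sw_adj, sw_adj]
  simp only [Set.mem_ofPred_eq]
  by_cases h : u = w
  · tauto
  · tauto

theorem sw_trivial (X : SimpleGraph V) {τ : Set V} (h : ∀ x y, x ∈ τ ↔ y ∈ τ) : sw X τ = X := by
  ext u w
  rw [sw_adj]
  constructor
  · rintro ⟨-, h2⟩
    exact h2.2 (h u w)
  · intro h2
    exact ⟨h2.ne, iff_of_true h2 (h u w)⟩

theorem sw_involutive (X : SimpleGraph V) (τ : Set V) : sw (sw X τ) τ = X := by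
  rw [sw_sw]
  exact sw_trivial X fun x y => by simp

/-- transport of a switching along an isomorphism -/
def swIso {X : SimpleGraph V} {Y : SimpleGraph W} (f : X ≃g Y) (τ : Set W) :
    sw X (f ⁻¹' τ) ≃g sw Y τ where
  toEquiv := f.toEquiv
  map_rel_iff' := by
    intro a b
    change (f a ≠ f b ∧ (Y.Adj (f a) (f b) ↔ (f a ∈ τ ↔ f b ∈ τ))) ↔
      (a ≠ b ∧ (X.Adj a b ↔ (f a ∈ τ ↔ f b ∈ τ)))
    rw [f.map_adj_iff, f.injective.ne_iff]

theorem SwEq.symm {X : SimpleGraph V} {Y : SimpleGraph W} (h : SwEq X Y) : SwEq Y X := by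
  obtain ⟨τ, ⟨f⟩⟩ := h
  refine ⟨f ⁻¹' τ, ⟨?_⟩⟩
  have g := swIso f τ
  rw [sw_involutive] at g
  exact g.symm

theorem swEq_of_iso {X : SimpleGraph V} {Y : SimpleGraph W} (f : X ≃g Y) : SwEq X Y := by
  refine ⟨∅, ⟨?_⟩⟩
  rw [sw_trivial X (τ := ∅) (by simp)]
  exact f.symm

theorem cardOf_sw (H : SimpleGraph V) (τ : Set V) (v : V) :
    cardOf (sw H τ) v = sw (cardOf H v) (Subtype.val ⁻¹' τ) := by
  ext a b
  change (a.1 ≠ b.1 ∧ (H.Adj a.1 b.1 ↔ (a.1 ∈ τ ↔ b.1 ∈ τ))) ↔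
    (a ≠ b ∧ (H.Adj a.1 b.1 ↔ (a.1 ∈ τ ↔ b.1 ∈ τ)))
  rw [Subtype.coe_ne_coe]

/-- deleting corresponding vertices of isomorphic graphs -/
def cardIso {G : SimpleGraph V} {H : SimpleGraph W} (f : G ≃g H) (v : V) :
    cardOf G v ≃g cardOf H (f v) where
  toEquiv := f.toEquiv.subtypeEquiv fun a => by
    change a ≠ v ↔ f a ≠ f v
    exact f.injective.ne_iff.symm
  map_rel_iff' := by
    intro a b
    exact f.map_adj_iff

/-! ### thin graphs -/

/-- Every partition is crossed by less than half of the possible edges. -/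
def Min [Fintype U] [DecidableEq U] (Y : SimpleGraph U) : Prop :=
  ∀ σ : Finset U, σ.Nonempty → σᶜ.Nonempty → 2 * cross Y σ σᶜ < σ.card * (σᶜ).card

theorem Thin.min [Finite V] {G : SimpleGraph V} (hG : Thin G) [Fintype U] [DecidableEq U]
    {Y : SimpleGraph U} (f : Y ↪g G) (hU : Nat.card V ≤ Fintype.card U + 2) : Min Y := by
  classical
  intro σ h1 h2
  have e : cross G (σ.map f.toEmbedding) (σᶜ.map f.toEmbedding) = cross Y σ σᶜ := by
    unfold cross
    symm
    refine Finset.card_bij (fun p _ => (f p.1, f p.2)) ?_ ?_ ?_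
    · intro p hp
      rw [mem_filter, mem_product] at hp ⊢
      exact ⟨⟨mem_map_of_mem _ hp.1.1, mem_map_of_mem _ hp.1.2⟩, f.map_adj_iff.2 hp.2⟩
    · intro p _ q _ h
      rw [Prod.mk.injEq] at h
      exact Prod.ext (f.injective h.1) (f.injective h.2)
    · rintro ⟨a, b⟩ hp
      rw [mem_filter, mem_product, mem_map, mem_map] at hp
      obtain ⟨⟨⟨x, hx, rfl⟩, ⟨y, hy, rfl⟩⟩, h⟩ := hp
      exact ⟨(x, y), mem_filter.2 ⟨mem_product.2 ⟨hx, hy⟩, f.map_adj_iff.1 h⟩, rfl⟩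
  have h3 := hG (σ.map f.toEmbedding) (σᶜ.map f.toEmbedding)
    ((Finset.disjoint_map _).2 disjoint_compl_right) (h1.map) (h2.map) (by
      rw [card_map, card_map, card_add_card_compl]
      exact hU)
  rwa [e, card_map, card_map] at h3

theorem Min.trivial [Fintype U] [DecidableEq U] {Y : SimpleGraph U} {B : Set U} (h1 : Min Y)
    (h2 : Min (sw Y B)) (x y : U) : x ∈ B ↔ y ∈ B := by
  classical
  by_contra hxy
  set σ : Finset U := univ.filter (· ∈ B) with hσ
  have hmem : ∀ z, z ∈ σ ↔ z ∈ B := fun z => by simp [hσ]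
  have hne : σ.Nonempty ∧ σᶜ.Nonempty := by
    by_cases hx : x ∈ B
    · exact ⟨⟨x, (hmem x).2 hx⟩, ⟨y, mem_compl.2 fun h => hxy (iff_of_true hx ((hmem y).1 h))⟩⟩
    · refine ⟨⟨y, (hmem y).2 ?_⟩, ⟨x, mem_compl.2 fun h => hx ((hmem x).1 h)⟩⟩
      by_contra hy
      exact hxy (iff_of_false hx hy)
  have e1 := h1 σ hne.1 hne.2
  have e2 := h2 σ hne.1 hne.2
  have e3 : cross Y σ σᶜ + cross (sw Y B) σ σᶜ = σ.card * (σᶜ).card := by
    rw [← card_product]
    unfold cross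
    have e4 : ((σ ×ˢ σᶜ).filter fun p => (sw Y B).Adj p.1 p.2) =
        (σ ×ˢ σᶜ).filter fun p => ¬ Y.Adj p.1 p.2 := by
      refine filter_congr ?_
      rintro ⟨a, b⟩ hp
      rw [mem_product, mem_compl, hmem, hmem] at hp
      rw [sw_adj]
      have hab : a ≠ b := fun h => hp.2 (h ▸ hp.1)
      have h5 : ¬ (a ∈ B ↔ b ∈ B) := fun h => hp.2 (h.1 hp.1)
      tauto
    rw [e4]
    exact card_filter_add_card_filter_not _
  omega

/-! ### degrees -/

open Classical in
/-- degree -/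
noncomputable def dg [Fintype U] (X : SimpleGraph U) (u : U) : ℕ :=
  (univ.filter fun y => X.Adj u y).card

theorem dg_iso [Fintype U] [Fintype V] {X : SimpleGraph U} {Y : SimpleGraph V} (f : X ≃g Y)
    (u : U) : dg Y (f u) = dg X u := by
  classical
  unfold dg
  symm
  refine Finset.card_bij (fun y _ => f y) ?_ ?_ ?_
  · intro y hy
    rw [mem_filter] at hy ⊢
    exact ⟨mem_univ _, f.map_adj_iff.2 hy.2⟩
  · intro a _ b _ h
    exact f.injective h
  · intro z hz
    rw [mem_filter] at hz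
    refine ⟨f.symm z, mem_filter.2 ⟨mem_univ _, ?_⟩, f.apply_symm_apply z⟩
    rw [← f.map_adj_iff, f.apply_symm_apply]
    exact hz.2

/-! ### isomorphic cards -/

/-- deleting corresponding vertices of isomorphic cards -/
def delIso {G : SimpleGraph V} {K : SimpleGraph W} {a : V} {b : W}
    (f : cardOf G a ≃g cardOf K b) (x : {x : V // x ≠ a}) :
    del2 G a x.1 ≃g del2 K b (f x).1 where
  toFun y := ⟨(f ⟨y.1, y.2.1⟩).1, (f ⟨y.1, y.2.1⟩).2, fun h =>
    y.2.2 (congrArg Subtype.val (f.injective (Subtype.ext h)))⟩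
  invFun z := ⟨(f.symm ⟨z.1, z.2.1⟩).1, (f.symm ⟨z.1, z.2.1⟩).2, fun h => by
    have h1 : f.symm ⟨z.1, z.2.1⟩ = x := Subtype.ext h
    have h2 := congrArg f h1
    rw [f.apply_symm_apply] at h2
    exact z.2.2 (congrArg Subtype.val h2)⟩
  left_inv y := by
    apply Subtype.ext
    simp
  right_inv z := by
    apply Subtype.ext
    simp
  map_rel_iff' := by
    intro y z
    exact f.map_adj_iff (v := ⟨y.1, y.2.1⟩) (w := ⟨z.1, z.2.1⟩)

theorem exists_del {G : SimpleGraph V} {K : SimpleGraph W} {a : V} {b c : W}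
    (f : cardOf G a ≃g cardOf K b) (hc : c ≠ b) :
    ∃ x, a ≠ x ∧ Nonempty (del2 G a x ≃g del2 K b c) := by
  refine ⟨(f.symm ⟨c, hc⟩).1, Ne.symm (f.symm ⟨c, hc⟩).2, ?_⟩
  have k := delIso f (f.symm ⟨c, hc⟩)
  have e : (f (f.symm ⟨c, hc⟩)).1 = c := by rw [f.apply_symm_apply]
  rw [e] at k
  exact ⟨k⟩

/-- the order of the deletions -/
def delComm (G : SimpleGraph V) (a b : V) : del2 G a b ≃g del2 G b a where
  toFun x := ⟨x.1, x.2.2, x.2.1⟩
  invFun x := ⟨x.1, x.2.2, x.2.1⟩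
  left_inv _ := rfl
  right_inv _ := rfl
  map_rel_iff' := Iff.rfl

theorem del2_sw (H : SimpleGraph V) (τ : Set V) (a b : V) :
    del2 (sw H τ) a b = sw (del2 H a b) (Subtype.val ⁻¹' τ) := by
  ext x y
  change (x.1 ≠ y.1 ∧ (H.Adj x.1 y.1 ↔ (x.1 ∈ τ ↔ y.1 ∈ τ))) ↔
    (x ≠ y ∧ (H.Adj x.1 y.1 ↔ (x.1 ∈ τ ↔ y.1 ∈ τ)))
  rw [Subtype.coe_ne_coe]

/-! ### rigid graphs -/

/-- If two graphs `G - u - v`, `G - u' - v'` are isomorphic to a graph `Y` and a switching of
`Y`, then the switching is trivial. -/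
theorem Rigid.trivial {G : SimpleGraph V} (hG : Rigid G) {Y : SimpleGraph W} {B : Set W}
    {u v u' v' : V} (h1 : u ≠ v) (h2 : u' ≠ v') (k1 : Nonempty (del2 G u v ≃g Y))
    (k2 : Nonempty (del2 G u' v' ≃g sw Y B)) (x y : W) : x ∈ B ↔ y ∈ B := by
  obtain ⟨k1⟩ := k1
  obtain ⟨k2⟩ := k2
  have h3 := hG u v u' v' h1 h2 (k1 ⁻¹' B) ⟨(swIso k1 B).trans k2.symm⟩
  have h4 : ∀ z : W, z ∈ B ↔ k1.symm z ∈ k1 ⁻¹' B := by
    intro z
    rw [Set.mem_preimage, k1.apply_symm_apply]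
  rw [h4 x, h4 y]
  rcases h3 with h3 | h3
  · rw [h3]
    exact iff_of_false (fun h => h) (fun h => h)
  · rw [h3]
    exact iff_of_true (Set.mem_univ _) (Set.mem_univ _)

theorem exists_ne3 [Fintype V] [DecidableEq V] (hn : 4 ≤ Fintype.card V) (a b c : V) :
    ∃ z, z ≠ a ∧ z ≠ b ∧ z ≠ c := by
  obtain ⟨z, hz⟩ : ∃ z, z ∉ ({a, b, c} : Finset V) := by
    by_contra hcon
    push Not at hcon
    have h2 : (univ : Finset V) ⊆ {a, b, c} := fun z _ => hcon z
    have h3 := (card_le_card h2).trans card_le_three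
    rw [card_univ] at h3
    omega
  rw [mem_insert, mem_insert, mem_singleton, not_or, not_or] at hz
  exact ⟨z, hz⟩

private theorem alt [Fintype V] [DecidableEq V] {G H : SimpleGraph V} (hG : Rigid G)
    {v0 v : V} (hv : v0 ≠ v) (h0 : Nonempty (cardOf G v0 ≃g cardOf H v0))
    (h : ∃ ρ : Set V, Nonempty (cardOf G v ≃g cardOf (sw H ρ) v)) :
    Nonempty (cardOf G v ≃g cardOf H v) ∨ Nonempty (cardOf G v ≃g cardOf (sw H {v0}) v) := by
  classical
  obtain ⟨φ⟩ := h0
  obtain ⟨ρ, ⟨ψ⟩⟩ := h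
  obtain ⟨a, ha, k1⟩ := exists_del φ (Ne.symm hv)
  obtain ⟨b, hb, ⟨k2⟩⟩ := exists_del ψ hv
  have k2' : Nonempty (del2 G v b ≃g sw (del2 H v0 v) (Subtype.val ⁻¹' ρ)) := by
    rw [← del2_sw]
    exact ⟨k2.trans (delComm _ _ _)⟩
  have htriv := hG.trivial ha hb k1 k2'
  have htriv' : ∀ x y : V, x ≠ v0 → x ≠ v → y ≠ v0 → y ≠ v → (x ∈ ρ ↔ y ∈ ρ) :=
    fun x y h1 h2 h3 h4 => htriv ⟨x, h1, h2⟩ ⟨y, h3, h4⟩
  by_cases hc : ∀ x : V, x ≠ v0 → x ≠ v → (v0 ∈ ρ ↔ x ∈ ρ)
  · left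
    have e : cardOf (sw H ρ) v = cardOf H v := by
      rw [cardOf_sw]
      refine sw_trivial _ ?_
      have key : ∀ x : V, x ≠ v → (v0 ∈ ρ ↔ x ∈ ρ) := by
        intro x hx
        by_cases hx0 : x = v0
        · rw [hx0]
        · exact hc x hx0 hx
      rintro ⟨x, hx⟩ ⟨y, hy⟩
      exact (key x hx).symm.trans (key y hy)
    rw [e] at ψ
    exact ⟨ψ⟩
  · right
    push Not at hc
    obtain ⟨u, hu0, huv, hu⟩ := hc
    have e : cardOf (sw H ρ) v = cardOf (sw H {v0}) v := by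
      rw [cardOf_sw, cardOf_sw]
      ext a b
      obtain ⟨a, ha⟩ := a
      obtain ⟨b, hb⟩ := b
      rw [sw_adj, sw_adj]
      have key : ∀ x : V, x ≠ v → ((x ∈ ρ ↔ u ∈ ρ) ↔ ¬ x = v0) := by
        intro x hx
        by_cases hx0 : x = v0
        · rw [hx0]
          tauto
        · exact iff_of_true (htriv' x u hx0 hx hu0 huv) hx0
      have ka := key a ha
      have kb := key b hb
      have e1 : ((⟨a, ha⟩ : {x : V // x ≠ v}) ∈ (Subtype.val ⁻¹' ρ : Set {x : V // x ≠ v}) ↔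
          (⟨b, hb⟩ : {x : V // x ≠ v}) ∈ (Subtype.val ⁻¹' ρ : Set {x : V // x ≠ v})) ↔
          (a = v0 ↔ b = v0) := by
        change (a ∈ ρ ↔ b ∈ ρ) ↔ _
        tauto
      have e2 : ((⟨a, ha⟩ : {x : V // x ≠ v}) ∈
          (Subtype.val ⁻¹' ({v0} : Set V) : Set {x : V // x ≠ v}) ↔
          (⟨b, hb⟩ : {x : V // x ≠ v}) ∈
          (Subtype.val ⁻¹' ({v0} : Set V) : Set {x : V // x ≠ v})) ↔
          (a = v0 ↔ b = v0) := Iff.rfl
      rw [e1, e2]
    rw [e] at ψ
    exact ⟨ψ⟩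

private theorem consistent [Fintype V] [DecidableEq V] {G H : SimpleGraph V} (hG : Rigid G)
    (hn : 4 ≤ Fintype.card V) {v0 v w : V} (hv : v0 ≠ v) (hw : v0 ≠ w) (hvw : v ≠ w)
    (h1 : Nonempty (cardOf G v ≃g cardOf H v))
    (h2 : Nonempty (cardOf G w ≃g cardOf (sw H {v0}) w)) : False := by
  obtain ⟨g1⟩ := h1
  obtain ⟨g2⟩ := h2
  obtain ⟨a, ha, k1⟩ := exists_del g1 (Ne.symm hvw)
  obtain ⟨b, hb, ⟨k2⟩⟩ := exists_del g2 hvw
  have k2' : Nonempty (del2 G w b ≃g sw (del2 H v w) (Subtype.val ⁻¹' {v0})) := by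
    rw [← del2_sw]
    exact ⟨k2.trans (delComm _ _ _)⟩
  obtain ⟨z, hz0, hzv, hzw⟩ := exists_ne3 hn v0 v w
  have h3 := hG.trivial ha hb k1 k2' ⟨v0, hv, hw⟩ ⟨z, hzv, hzw⟩
  exact hz0 (h3.1 rfl)

private theorem same [Fintype V] [DecidableEq V] {G H : SimpleGraph V} (hG : Rigid G)
    (hn : 4 ≤ Fintype.card V) (S : Set V)
    (h : ∀ v ∈ S, ∃ τ : Set V, Nonempty (cardOf G v ≃g cardOf (sw H τ) v)) :
    ∃ τ : Set V, ∀ v ∈ S, Nonempty (cardOf G v ≃g cardOf (sw H τ) v) := by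
  classical
  rcases S.eq_empty_or_nonempty with hS | ⟨v0, hv0⟩
  · exact ⟨∅, fun v hv => by rw [hS] at hv; exact hv.elim⟩
  obtain ⟨τ, h0⟩ := h v0 hv0
  have h1 : ∀ v ∈ S, v0 ≠ v → Nonempty (cardOf G v ≃g cardOf (sw H τ) v) ∨
      Nonempty (cardOf G v ≃g cardOf (sw (sw H τ) {v0}) v) := by
    intro v hvS hv
    refine alt hG hv h0 ?_
    obtain ⟨ρ, hρ⟩ := h v hvS
    refine ⟨{x | ¬ (x ∈ τ ↔ x ∈ ρ)}, ?_⟩
    rw [sw_sw]
    have e : {x | ¬ (x ∈ τ ↔ x ∈ {x | ¬ (x ∈ τ ↔ x ∈ ρ)})} = ρ := by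
      ext x
      simp only [Set.mem_ofPred_eq]
      tauto
    rw [e]
    exact hρ
  by_cases hc : ∀ v ∈ S, v0 ≠ v → Nonempty (cardOf G v ≃g cardOf (sw H τ) v)
  · refine ⟨τ, fun v hvS => ?_⟩
    by_cases hv : v0 = v
    · rw [← hv]
      exact h0
    · exact hc v hvS hv
  · push Not at hc
    obtain ⟨w, hwS, hw, hw1⟩ := hc
    have hw2 := (h1 w hwS hw).resolve_left (not_nonempty_iff.2 hw1)
    refine ⟨{x | ¬ (x ∈ τ ↔ x ∈ ({v0} : Set V))}, fun v hvS => ?_⟩
    rw [← sw_sw]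
    by_cases hv : v0 = v
    · rw [← hv, cardOf_sw (sw H τ), sw_trivial]
      · exact h0
      · rintro ⟨x, hx⟩ ⟨y, hy⟩
        exact iff_of_false hx hy
    · rcases h1 v hvS hv with h2 | h2
      · by_cases hvw : v = w
        · rw [hvw]
          exact hw2
        · exact (consistent hG hn hv hw hvw h2 hw2).elim
      · exact h2

theorem transfer [Finite V] {G : SimpleGraph V} (hG : Rigid G) (hn : 4 ≤ Nat.card V)
    (S : Set V) (W : Type) (H : SimpleGraph W) (π : V ≃ W) :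
    (∀ v ∈ S, SwEq (cardOf G v) (cardOf H (π v))) ↔
      ∃ τ : Set W, ∀ v ∈ S, Nonempty (cardOf G v ≃g cardOf (sw H τ) (π v)) := by
  classical
  have := Fintype.ofFinite V
  rw [Nat.card_eq_fintype_card] at hn
  constructor
  · intro hπ
    set H' : SimpleGraph V := H.comap π with hH'
    let f : H' ≃g H := ⟨π, Iff.rfl⟩
    have h1 : ∀ v ∈ S, ∃ τ : Set V, Nonempty (cardOf G v ≃g cardOf (sw H' τ) v) := by
      intro v hv
      obtain ⟨B, ⟨g⟩⟩ := (hπ v hv).symm
      have k := swIso (cardIso f v) B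
      refine ⟨Subtype.val '' ((cardIso f v) ⁻¹' B), ⟨?_⟩⟩
      rw [cardOf_sw, Set.preimage_image_eq _ Subtype.val_injective]
      exact g.trans k.symm
    obtain ⟨τ, hτ⟩ := same hG hn S h1
    refine ⟨π.symm ⁻¹' τ, fun v hv => ?_⟩
    obtain ⟨g⟩ := hτ v hv
    let k : sw H' τ ≃g sw H (π.symm ⁻¹' τ) :=
      { toEquiv := π
        map_rel_iff' := by
          intro a b
          change (π a ≠ π b ∧ (H.Adj (π a) (π b) ↔
            (π.symm (π a) ∈ τ ↔ π.symm (π b) ∈ τ))) ↔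
            (a ≠ b ∧ (H.Adj (π a) (π b) ↔ (a ∈ τ ↔ b ∈ τ)))
          rw [Equiv.symm_apply_apply, Equiv.symm_apply_apply, π.injective.ne_iff] }
    exact ⟨g.trans (cardIso k v)⟩
  · rintro ⟨τ, hπ⟩ v hv
    obtain ⟨g⟩ := hπ v hv
    rw [cardOf_sw] at g
    exact SwEq.symm ⟨_, ⟨g⟩⟩

theorem determined_iff [Finite V] {G : SimpleGraph V} (hG : Rigid G) (hn : 4 ≤ Nat.card V)
    {S : Set V} (hS : S.Nontrivial) : ClassDetermined G S ↔ GraphDetermined G S := by
  classical
  constructor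
  · intro hc W H π hH
    have h1 : ∀ v ∈ S, SwEq (cardOf G v) (cardOf H (π v)) := fun v hv => by
      obtain ⟨g⟩ := hH v hv
      exact swEq_of_iso g
    obtain ⟨τ, ⟨f⟩⟩ := hc W H π h1
    have := Fintype.ofFinite V
    rw [Nat.card_eq_fintype_card] at hn
    have key : ∀ v ∈ S, ∀ x y : V, x ≠ f (π v) → y ≠ f (π v) → (x ∈ τ ↔ y ∈ τ) := by
      intro v hv x y hx hy
      set z := f (π v) with hz
      obtain ⟨g⟩ := hH v hv
      have k : cardOf G v ≃g cardOf (sw G τ) z := g.trans (cardIso f (π v))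
      obtain ⟨w, hw1, hw2, hw3⟩ := exists_ne3 hn x y z
      obtain ⟨a, ha, k1⟩ := exists_del k hw3
      rw [del2_sw] at k1
      exact hG.trivial (Ne.symm hw3) ha ⟨SimpleGraph.Iso.refl⟩ k1 ⟨x, hx, Ne.symm hw1⟩
        ⟨y, hy, Ne.symm hw2⟩
    obtain ⟨v1, hv1, v2, hv2, h12⟩ := hS
    have h12' : f (π v1) ≠ f (π v2) := fun h => h12 (π.injective (f.injective h))
    obtain ⟨u, hu1, hu2, -⟩ := exists_ne3 hn (f (π v1)) (f (π v2)) (f (π v2))
    have hall : ∀ x, x ∈ τ ↔ u ∈ τ := by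
      intro x
      by_cases hx : x = f (π v1)
      · exact key v2 hv2 x u (by rw [hx]; exact h12') hu2
      · exact key v1 hv1 x u hx hu1
    rw [sw_trivial G fun x y => (hall x).trans (hall y).symm] at f
    exact ⟨f.symm⟩
  · intro hr W H π hH
    obtain ⟨τ, hτ⟩ := (transfer hG hn S W H π).1 hH
    obtain ⟨f⟩ := hr W (sw H τ) π hτ
    exact SwEq.symm ⟨τ, ⟨f⟩⟩

/-! ### thin graphs are rigid -/

theorem Thin.rigid [Finite V] {G : SimpleGraph V} (hG : Thin G) : Rigid G := by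
  classical
  have := Fintype.ofFinite V
  rintro u v u' v' h1 h2 B ⟨k⟩
  have hU : Nat.card V ≤ Fintype.card {x : V // x ≠ u ∧ x ≠ v} + 2 := by
    have e : (univ.filter fun x : V => x ≠ u ∧ x ≠ v) = univ \ {u, v} := by
      ext x
      simp
    rw [Nat.card_eq_fintype_card, Fintype.card_subtype, e,
      card_sdiff_of_subset (subset_univ _), card_univ, card_pair h1]
    omega
  have m1 := hG.min (Y := del2 G u v)
    (SimpleGraph.Embedding.comap (Function.Embedding.subtype _) G) hU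
  have m2 := hG.min (Y := sw (del2 G u v) B) (k.toEmbedding.trans
    (SimpleGraph.Embedding.comap (Function.Embedding.subtype _) G)) hU
  have h3 := Min.trivial m1 m2
  rcases B.eq_empty_or_nonempty with hB | ⟨x, hx⟩
  · exact Or.inl hB
  · exact Or.inr (Set.eq_univ_of_forall fun y => (h3 x y).1 hx)

/-! ### graphs of small maximum degree are thin -/

theorem cross_le [Fintype V] [DecidableEq V] (G : SimpleGraph V) {k : ℕ} (hk : ∀ v, dg G v ≤ k)
    (σ τ : Finset V) : cross G σ τ ≤ k * σ.card := by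
  classical
  unfold cross
  rw [card_filter, sum_product, mul_comm, ← smul_eq_mul]
  refine sum_le_card_nsmul _ _ _ fun a _ => ?_
  rw [← card_filter]
  exact (card_le_card (filter_subset_filter _ (subset_univ τ))).trans (hk a)

theorem cross_comm [DecidableEq V] (G : SimpleGraph V) (σ τ : Finset V) :
    cross G σ τ = cross G τ σ := by
  classical
  unfold cross
  refine Finset.card_bij (fun p _ => (p.2, p.1)) ?_ ?_ ?_
  · intro p hp
    rw [mem_filter, mem_product] at hp ⊢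
    exact ⟨⟨hp.1.2, hp.1.1⟩, hp.2.symm⟩
  · intro p _ q _ h
    rw [Prod.mk.injEq] at h
    exact Prod.ext h.2 h.1
  · intro p hp
    rw [mem_filter, mem_product] at hp
    exact ⟨(p.2, p.1), mem_filter.2 ⟨mem_product.2 ⟨hp.1.2, hp.1.1⟩, hp.2.symm⟩, rfl⟩

theorem thin_of_small_degree [Fintype V] {G : SimpleGraph V} {k : ℕ}
    (hk : ∀ v, dg G v ≤ k) (hn : 4 * k + 2 < Fintype.card V) : Thin G := by
  classical
  have key : ∀ σ τ : Finset V, σ.Nonempty → Fintype.card V ≤ σ.card + τ.card + 2 →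
      σ.card ≤ τ.card → 2 * cross G σ τ < σ.card * τ.card := by
    intro σ τ h1 h2 h3
    have h4 := cross_le G hk σ τ
    have h5 : 2 * k < τ.card := by omega
    have h6 := card_pos.2 h1
    calc 2 * cross G σ τ ≤ 2 * (k * σ.card) := by omega
      _ = σ.card * (2 * k) := by ring
      _ < σ.card * τ.card := Nat.mul_lt_mul_of_pos_left h5 h6
  intro σ τ _ h1 h2 h3
  rw [Nat.card_eq_fintype_card] at h3
  rcases le_total σ.card τ.card with h | h
  · exact key σ τ h1 h3 h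
  · rw [cross_comm, mul_comm σ.card]
    exact key τ σ h2 (by omega) h

theorem cross_le_edges [Finite V] (G : SimpleGraph V) {σ τ : Finset V} (h : Disjoint σ τ) :
    cross G σ τ ≤ G.edgeSet.ncard := by
  classical
  unfold cross
  rw [← Set.ncard_coe_finset]
  refine Set.ncard_le_ncard_of_injOn (fun p => s(p.1, p.2)) ?_ ?_ (Set.toFinite _)
  · intro p hp
    rw [mem_coe, mem_filter] at hp
    exact (SimpleGraph.mem_edgeSet G).2 hp.2
  · intro p hp q hq hpq
    rw [mem_coe, mem_filter, mem_product] at hp hq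
    rcases Sym2.eq_iff.1 hpq with h1 | h1
    · exact Prod.ext h1.1 h1.2
    · exact absurd hq.1.2 (Finset.disjoint_left.1 h (h1.1 ▸ hp.1.1))

theorem thin_of_few_edges [Fintype V] {G : SimpleGraph V} {a : ℕ}
    (hk : ∀ v, 2 * dg G v + a + 1 < Fintype.card V)
    (hm : 2 * G.edgeSet.ncard + a * (a + 2) < a * Fintype.card V) : Thin G := by
  classical
  have key : ∀ σ τ : Finset V, Disjoint σ τ → σ.Nonempty →
      Fintype.card V ≤ σ.card + τ.card + 2 →
      σ.card ≤ τ.card → 2 * cross G σ τ < σ.card * τ.card := by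
    intro σ τ hd h1 h2 h3
    have h6 := card_pos.2 h1
    by_cases ha : σ.card < a
    · obtain ⟨v, -, hv⟩ := Finset.exists_max_image (univ : Finset V) (fun v => dg G v)
        ⟨h1.choose, mem_univ _⟩
      have h4 := cross_le G (k := dg G v) (fun w => hv w (mem_univ w)) σ τ
      have h5 : 2 * dg G v < τ.card := by
        have := hk v
        omega
      calc 2 * cross G σ τ ≤ 2 * (dg G v * σ.card) := by omega
        _ = σ.card * (2 * dg G v) := by ring
        _ < σ.card * τ.card := Nat.mul_lt_mul_of_pos_left h5 h6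
    · push Not at ha
      have h4 := cross_le_edges G hd
      obtain ⟨s, hs⟩ : ∃ s, σ.card = a + s := ⟨σ.card - a, by omega⟩
      obtain ⟨t, ht⟩ : ∃ t, τ.card = a + t := ⟨τ.card - a, by omega⟩
      rw [hs, ht] at h2 ⊢
      have h7 : a * Fintype.card V ≤ a * (a + s + (a + t) + 2) := Nat.mul_le_mul_left a h2
      nlinarith [Nat.zero_le (s * t)]
  intro σ τ hd h1 h2 h3
  rw [Nat.card_eq_fintype_card] at h3
  rcases le_total σ.card τ.card with h | h
  · exact key σ τ hd h1 h3 h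
  · rw [cross_comm, mul_comm σ.card]
    exact key τ σ hd.symm h2 (by omega) h

/-! ### two families of reconstructible graphs -/

open Classical in
/-- indicator of adjacency -/
noncomputable def ia (X : SimpleGraph U) (a b : U) : ℕ := if X.Adj a b then 1 else 0

theorem dg_eq [Fintype U] (X : SimpleGraph U) (a : U) : dg X a = ∑ b, ia X a b := by
  classical
  unfold dg ia
  rw [card_filter]

theorem ia_self (X : SimpleGraph U) (a : U) : ia X a a = 0 := if_neg (X.loopless.irrefl a)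

theorem ia_comm (X : SimpleGraph U) (a b : U) : ia X a b = ia X b a := by
  unfold ia
  rw [X.adj_comm]

theorem sum_split [Fintype V] [DecidableEq V] (v : V) (f : V → ℕ) :
    ∑ x, f x = f v + ∑ x : {x : V // x ≠ v}, f x.1 := by
  rw [← add_sum_erase univ f (mem_univ v)]
  congr 1
  refine Finset.sum_subtype (univ.erase v) (fun x => ?_) f
  simp

theorem dg_card [Fintype V] [DecidableEq V] (G : SimpleGraph V) (v : V) (x : {x : V // x ≠ v}) :
    dg G x.1 = ia G v x.1 + dg (cardOf G v) x := by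
  rw [dg_eq, dg_eq, sum_split v, ia_comm]
  rfl

theorem sum_dg_card [Fintype V] [DecidableEq V] (G : SimpleGraph V) (v : V) :
    ∑ x, dg G x = 2 * dg G v + ∑ x, dg (cardOf G v) x := by
  rw [sum_split v, sum_congr rfl fun x _ => dg_card G v x, sum_add_distrib, two_mul, add_assoc]
  congr 2
  have h1 := sum_split v (fun x => ia G v x)
  simp only [ia_self, zero_add] at h1
  rw [← h1, ← dg_eq]

theorem sum_dg_iso [Fintype U] [Fintype V] {X : SimpleGraph U} {Y : SimpleGraph V} (f : X ≃g Y) :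
    ∑ u, dg X u = ∑ v, dg Y v := by
  rw [← f.toEquiv.sum_comp]
  exact sum_congr rfl fun u _ => (dg_iso f u).symm

/-- Kelly's lemma for the degrees. -/
theorem kelly [Fintype V] [Fintype W] [DecidableEq V] [DecidableEq W] {G : SimpleGraph V}
    {H : SimpleGraph W} (hn : 3 ≤ Fintype.card V) (π : V ≃ W)
    (h : ∀ v, Nonempty (cardOf G v ≃g cardOf H (π v))) (v : V) : dg H (π v) = dg G v := by
  set a := ∑ x, dg G x with ha
  set b := ∑ x, dg H x with hb
  have h1 : ∀ v, 2 * dg G v + b = 2 * dg H (π v) + a := by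
    intro v
    obtain ⟨g⟩ := h v
    have e1 := sum_dg_card G v
    have e2 := sum_dg_card H (π v)
    have e3 := sum_dg_iso g
    omega
  have h2 : 2 * a + Fintype.card V * b = 2 * b + Fintype.card V * a := by
    have e1 := Finset.sum_congr (rfl : (univ : Finset V) = univ) fun v _ => h1 v
    rw [sum_add_distrib, sum_add_distrib, ← mul_sum, ← mul_sum, sum_const, sum_const, card_univ,
      smul_eq_mul, smul_eq_mul, π.sum_comp (fun w => dg H w)] at e1
    exact e1
  have h3 : a = b := by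
    obtain ⟨m, hm⟩ : ∃ m, Fintype.card V = m + 3 := ⟨Fintype.card V - 3, by omega⟩
    rw [hm] at h2
    nlinarith
  have := h1 v
  omega

theorem extend [DecidableEq V] [DecidableEq W] {G : SimpleGraph V} {H : SimpleGraph W} {v : V}
    {w : W} (φ : cardOf G v ≃g cardOf H w)
    (h : ∀ x : {x : V // x ≠ v}, G.Adj v x.1 ↔ H.Adj w (φ x).1) : Nonempty (G ≃g H) := by
  let e : V ≃ W := (Equiv.optionSubtypeNe v).symm.trans
    ((Equiv.optionCongr φ.toEquiv).trans (Equiv.optionSubtypeNe w))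
  have e1 : e v = w := by
    simp [e]
  have e2 : ∀ x : {x : V // x ≠ v}, e x.1 = (φ x).1 := by
    intro x
    simp [e, Equiv.optionSubtypeNe_symm_of_ne x.2]
  refine ⟨⟨e, ?_⟩⟩
  intro a b
  by_cases ha : a = v
  · by_cases hb : b = v
    · rw [ha, hb]
      exact iff_of_false (H.loopless.irrefl _) (G.loopless.irrefl _)
    · rw [ha, e1, e2 ⟨b, hb⟩]
      exact (h ⟨b, hb⟩).symm
  · by_cases hb : b = v
    · rw [hb, e1, e2 ⟨a, ha⟩, H.adj_comm, G.adj_comm]
      exact (h ⟨a, ha⟩).symm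
    · rw [e2 ⟨a, ha⟩, e2 ⟨b, hb⟩]
      exact φ.map_adj_iff

theorem ia_eq_one {X : SimpleGraph U} {a b : U} : ia X a b = 1 ↔ X.Adj a b := by
  unfold ia
  split_ifs with h
  · exact iff_of_true rfl h
  · exact iff_of_false (by norm_num) h

open Classical in
/-- number of non-neighbours of `v` of degree `j` -/
noncomputable def An [Fintype U] (X : SimpleGraph U) (v : U) (j : ℕ) : ℕ :=
  ∑ x, if x ≠ v ∧ ¬ X.Adj v x ∧ dg X x = j then 1 else 0

open Classical in
/-- number of neighbours of `v` of degree `j` -/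
noncomputable def Bn [Fintype U] (X : SimpleGraph U) (v : U) (j : ℕ) : ℕ :=
  ∑ x, if X.Adj v x ∧ dg X x = j then 1 else 0

open Classical in
theorem An_add_Bn [Fintype U] (X : SimpleGraph U) (v : U) (j : ℕ) :
    (∑ x, if x ≠ v ∧ dg X x = j then 1 else 0) = An X v j + Bn X v j := by
  unfold An Bn
  rw [← sum_add_distrib]
  refine sum_congr rfl fun x _ => ?_
  by_cases h1 : X.Adj v x
  · have h2 : x ≠ v := h1.ne'
    by_cases h3 : dg X x = j
    · simp [h1, h2, h3]
    · simp [h1, h3]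
  · simp [h1]

open Classical in
theorem An_add_Bn_succ [Fintype V] (X : SimpleGraph V) (v : V) (j : ℕ) :
    (∑ x : {x : V // x ≠ v}, if dg (cardOf X v) x = j then 1 else 0) =
      An X v j + Bn X v (j + 1) := by
  unfold An Bn
  rw [← sum_add_distrib, sum_split v]
  have h0 : ¬ X.Adj v v := X.loopless.irrefl v
  simp only [ne_eq, not_true_eq_false, false_and, if_false, h0, zero_add]
  refine sum_congr rfl fun x _ => ?_
  have h1 := dg_card X v x
  have h2 := x.2
  by_cases h3 : X.Adj v x.1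
  · have h4 : ia X v x.1 = 1 := if_pos h3
    rw [h4] at h1
    by_cases h5 : dg (cardOf X v) x = j
    · have h6 : dg X x.1 = j + 1 := by omega
      simp [h3, h5, h6]
    · have h6 : ¬ dg X x.1 = j + 1 := by omega
      simp [h3, h5, h6]
  · have h4 : ia X v x.1 = 0 := if_neg h3
    rw [h4, zero_add] at h1
    simp [h3, h2, h1]

theorem Bn_zero [Fintype U] (X : SimpleGraph U) (v : U) : Bn X v 0 = 0 := by
  classical
  unfold Bn
  refine sum_eq_zero fun x _ => ?_
  rw [if_neg]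
  rintro ⟨h1, h2⟩
  have : 0 < dg X x := card_pos.2 ⟨v, mem_filter.2 ⟨mem_univ _, h1.symm⟩⟩
  omega

theorem An_pos [Fintype U] (X : SimpleGraph U) (v : U) (j : ℕ) :
    0 < An X v j ↔ ∃ x, x ≠ v ∧ ¬ X.Adj v x ∧ dg X x = j := by
  classical
  unfold An
  rw [← card_filter, card_pos]
  constructor
  · rintro ⟨x, hx⟩
    exact ⟨x, (mem_filter.1 hx).2⟩
  · rintro ⟨x, hx⟩
    exact ⟨x, mem_filter.2 ⟨mem_univ _, hx⟩⟩

theorem Bn_pos [Fintype U] (X : SimpleGraph U) (v : U) (j : ℕ) :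
    0 < Bn X v j ↔ ∃ x, X.Adj v x ∧ dg X x = j := by
  classical
  unfold Bn
  rw [← card_filter, card_pos]
  constructor
  · rintro ⟨x, hx⟩
    exact ⟨x, (mem_filter.1 hx).2⟩
  · rintro ⟨x, hx⟩
    exact ⟨x, mem_filter.2 ⟨mem_univ _, hx⟩⟩

/-- Graphs with a vertex `v` such that no neighbour of `v` has degree one more than a
non-neighbour of `v` are reconstructible. -/
theorem rec_of_gap [Fintype V] {G : SimpleGraph V} (hn : 3 ≤ Fintype.card V) {v : V}
    (hv : ∀ x y, G.Adj v x → y ≠ v → ¬ G.Adj v y → dg G x ≠ dg G y + 1) :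
    GraphDetermined G Set.univ := by
  classical
  intro W H π hπ'
  have hπ := fun v => hπ' v (Set.mem_univ v)
  have := Fintype.ofEquiv V π
  have hd := kelly hn π hπ
  obtain ⟨φ⟩ := hπ v
  have e1 : ∀ j, An G v j + Bn G v j = An H (π v) j + Bn H (π v) j := by
    intro j
    rw [← An_add_Bn, ← An_add_Bn, ← π.sum_comp]
    refine sum_congr rfl fun x _ => ?_
    have h1 : π x ≠ π v ↔ x ≠ v := π.injective.ne_iff
    simp only [hd, h1]
  have e2 : ∀ j, An G v j + Bn G v (j + 1) = An H (π v) j + Bn H (π v) (j + 1) := by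
    intro j
    rw [← An_add_Bn_succ, ← An_add_Bn_succ, ← φ.toEquiv.sum_comp]
    refine sum_congr rfl fun x _ => ?_
    have h3 : dg (cardOf H (π v)) (φ.toEquiv x) = dg (cardOf G v) x := dg_iso φ x
    rw [h3]
  have e3 : ∀ j, Bn G v j = Bn H (π v) j := by
    intro j
    induction j with
    | zero => rw [Bn_zero, Bn_zero]
    | succ j ih =>
      have h1 := e1 j
      have h2 := e2 j
      omega
  have e4 : ∀ j, An G v j = An H (π v) j := by
    intro j
    have h1 := e1 j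
    have h2 := e3 j
    omega
  have hgap : ∀ j, 0 < An G v j → 0 < Bn G v (j + 1) → False := by
    intro j h1 h2
    obtain ⟨y, hy1, hy2, hy3⟩ := (An_pos G v j).1 h1
    obtain ⟨x, hx1, hx2⟩ := (Bn_pos G v (j + 1)).1 h2
    exact hv x y hx1 hy1 hy2 (by omega)
  refine extend φ fun x => ?_
  have hG := dg_card G v x
  have hH := dg_card H (π v) (φ x)
  rw [dg_iso φ x] at hH
  constructor
  · intro h
    by_contra h'
    rw [ia_eq_one.2 h] at hG
    have h2 : ia H (π v) (φ x).1 = 0 := if_neg h'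
    rw [h2, zero_add] at hH
    refine hgap (dg (cardOf G v) x) ?_ ?_
    · rw [e4]
      exact (An_pos _ _ _).2 ⟨(φ x).1, (φ x).2, h', hH⟩
    · exact (Bn_pos _ _ _).2 ⟨x.1, h, by omega⟩
  · intro h
    by_contra h'
    rw [ia_eq_one.2 h] at hH
    have h2 : ia G v x.1 = 0 := if_neg h'
    rw [h2, zero_add] at hG
    refine hgap (dg (cardOf G v) x) ?_ ?_
    · exact (An_pos _ _ _).2 ⟨x.1, x.2, h', hG⟩
    · rw [e3]
      exact (Bn_pos _ _ _).2 ⟨(φ x).1, h, by omega⟩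

/-! ### complements -/

theorem compl_sw (X : SimpleGraph V) (τ : Set V) : (sw X τ)ᶜ = sw Xᶜ τ := by
  ext u w
  rw [SimpleGraph.compl_adj, sw_adj, sw_adj, SimpleGraph.compl_adj]
  by_cases h : u = w
  · tauto
  · tauto

/-- complements of isomorphic graphs -/
def complIso {X : SimpleGraph V} {Y : SimpleGraph W} (f : X ≃g Y) : Xᶜ ≃g Yᶜ where
  toEquiv := f.toEquiv
  map_rel_iff' := by
    intro a b
    change Yᶜ.Adj (f a) (f b) ↔ Xᶜ.Adj a b
    rw [SimpleGraph.compl_adj, SimpleGraph.compl_adj, f.map_adj_iff, f.injective.ne_iff]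

theorem iso_compl {X : SimpleGraph V} {Y : SimpleGraph W} :
    Nonempty (Xᶜ ≃g Yᶜ) ↔ Nonempty (X ≃g Y) := by
  constructor
  · rintro ⟨f⟩
    have g := complIso f
    rw [compl_compl, compl_compl] at g
    exact ⟨g⟩
  · rintro ⟨f⟩
    exact ⟨complIso f⟩

theorem compl_del2 (G : SimpleGraph V) (u v : V) : (del2 G u v)ᶜ = del2 Gᶜ u v := by
  ext a b
  change (a ≠ b ∧ ¬ G.Adj a.1 b.1) ↔ Gᶜ.Adj a.1 b.1
  rw [SimpleGraph.compl_adj, Subtype.coe_ne_coe]

theorem Rigid.of_compl {G : SimpleGraph V} (h : Rigid Gᶜ) : Rigid G := by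
  intro u v u' v' h1 h2 B hB
  refine h u v u' v' h1 h2 B ?_
  rw [← compl_del2, ← compl_del2, ← compl_sw]
  exact iso_compl.2 hB

theorem dg_ncard [Fintype V] (G : SimpleGraph V) (v : V) : dg G v = (G.neighborSet v).ncard := by
  classical
  unfold dg
  rw [← Set.ncard_coe_finset]
  congr 1
  ext y
  simp

end Pool.Agent.Helper36.RT
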